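import Pool.Agent.H37.DEN.Targets

/-!
# MP_ccfdad_ag, row OMG: the values are rational multiples of one value
-/

set_option autoImplicit false

open MvPolynomial Filter Topology
open Pool.Agent.H18.HIT Pool.Agent.H8.TD Pool.Agent.H37.DEN

namespace Pool.Agent.H40.DEN

lemma mul_map {K A : Type*} [Field K] [AddCommGroup A] (f : K → A)
    (hf : ∀ a b, a ≠ 0 → b ≠ 0 → f (a * b) = f a + f b) :
    f 1 = 0 ∧ (∀ a, a ≠ 0 → f a⁻¹ = -f a) ∧ ∀ a, a ≠ 0 → ∀ n : ℤ, f (a ^ n) = n • f a := by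
  have h1 : f 1 = 0 := by
    have := hf 1 1 one_ne_zero one_ne_zero
    rw [mul_one] at this
    exact left_eq_add.1 this
  have h2 : ∀ a, a ≠ 0 → f a⁻¹ = -f a := by
    intro a ha
    have := hf a a⁻¹ ha (inv_ne_zero ha)
    rw [mul_inv_cancel₀ ha, h1] at this
    exact (neg_eq_of_add_eq_zero_right this.symm).symm
  have h3 : ∀ a, a ≠ 0 → ∀ n : ℕ, f (a ^ n) = n • f a := by
    intro a ha n
    induction n with
    | zero => simp [h1]
    | succ n ih => rw [pow_succ, hf _ _ (pow_ne_zero n ha) ha, ih, succ_nsmul]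
  refine ⟨h1, h2, fun a ha n => ?_⟩
  rcases n with n | n
  · rw [Int.ofNat_eq_natCast, zpow_natCast, h3 a ha, natCast_zsmul]
  · rw [zpow_negSucc, h2 _ (pow_ne_zero _ ha), h3 a ha, negSucc_zsmul]

/-- exponential sequences -/
lemma exp_seq (E : ℤ) (a : ℕ → ℤ) (c : ℤ) (N : ℕ) (h : ∀ n ≥ N, a (n + 1) = E * a n + c) :
    ∀ n ≥ N, E ^ N * ((E - 1) * a n + c) = E ^ n * ((E - 1) * a N + c) := by
  intro n hn
  induction n, hn using Nat.le_induction with
  | base => rfl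
  | succ n hn ih =>
    have e1 : (E - 1) * a (n + 1) + c = E * ((E - 1) * a n + c) := by
      rw [h n hn]
      ring
    rw [e1, pow_succ]
    linear_combination E * ih

section main

variable {k : Type} [Field k] {T : Tup 3 k} {τ : K3 k →ₐ[k] K3 k} {e : ℕ}

lemma it_ne (τ : K3 k →ₐ[k] K3 k) (n : ℕ) {h : K3 k} (hh : h ≠ 0) : τ^[n] h ≠ 0 := by
  induction n generalizing h with
  | zero => exact hh
  | succ n ih =>
    rw [Function.iterate_succ_apply]
    exact ih ((map_ne_zero τ).2 hh)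

lemma an_mul (hRDG : T_RDG) (τ : K3 k →ₐ[k] K3 k) (n : ℕ) (g h : K3 k) (hg : g ≠ 0)
    (hh : h ≠ 0) : rd (τ^[n] (g * h)) = rd (τ^[n] g) + rd (τ^[n] h) := by
  rw [iterate_map_mul]
  exact (hRDG k).2.2.1 _ _ (it_ne τ n hg) (it_ne τ n hh)

lemma rd_one_add (hRDG : T_RDG) (b : K3 k) (hb : b ≠ 0) (h1 : 1 + b ≠ 0) (hr : rd b < 0) :
    rd (1 + b) = 0 := by
  obtain ⟨-, -, hmul, hadd, hcon⟩ := hRDG k
  have e1 : rd (1 : K3 k) = 0 := by
    have := hcon 1 one_ne_zero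
    rwa [map_one] at this
  have e2 : rd (-b) = rd b := by
    have h2 := hmul (algebraMap k (K3 k) (-1)) b (by simp) hb
    rw [hcon (-1) (by simp), zero_add] at h2
    rw [← h2]
    congr 1
    simp
  have h3 := hadd 1 b one_ne_zero hb h1
  have h4 := hadd (1 + b) (-b) h1 (neg_ne_zero.2 hb) (by
    rw [add_neg_cancel_right]
    exact one_ne_zero)
  rw [add_neg_cancel_right, e1, e2] at h4
  rw [e1] at h3
  rcases le_max_iff.1 h4 with h5 | h5
  · rcases le_max_iff.1 h3 with h6 | h6 <;> omega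
  · omega

lemma asym (hRDG : T_RDG) (hSUM : T_SUM) {Λ : Type} [AddCommGroup Λ] [LinearOrder Λ]
    [IsOrderedAddMonoid Λ] {V : K3 k → Λ} (hV : Vt τ e V)
    (hres : ∀ h, h ≠ 0 → V h = 0 → τ h = h ∨ 0 < V (τ h - h))
    (hsgn : ∀ h, h ≠ 0 → 0 < V h → ∃ N : ℕ, ∀ n ≥ N, rd (τ^[n] h) < 0) (h : K3 k)
    (hh : h ≠ 0) : ∃ (N : ℕ) (c m : ℤ), ∀ n ≥ N,
      (e : ℤ) ^ N * (((e : ℤ) - 1) * rd (τ^[n] h) + c) = (e : ℤ) ^ n * m := by
  obtain ⟨hV1, hVinv, hVz⟩ := mul_map V hV.mul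
  have hdiv := (hSUM k τ e Λ V hV).2.1
  set w : K3 k := τ h / h ^ (e : ℤ) with hw
  have hτh : τ h ≠ 0 := (map_ne_zero τ).2 hh
  have hhe : h ^ (e : ℤ) ≠ 0 := zpow_ne_zero _ hh
  have hw0 : w ≠ 0 := div_ne_zero hτh hhe
  have hVw : V w = 0 := by
    rw [hw, hdiv _ _ hτh hhe, hV.tau h hh, hVz h hh, sub_self]
  have haw : ∀ n, rd (τ^[n + 1] h) = (e : ℤ) * rd (τ^[n] h) + rd (τ^[n] w) := by
    intro n
    have e1 : τ h = w * h ^ (e : ℤ) := by
      rw [hw, div_mul_cancel₀ _ hhe]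
    rw [Function.iterate_succ_apply, e1, an_mul hRDG τ n _ _ hw0 hhe]
    have e2 := (mul_map (fun g => rd (τ^[n] g)) (an_mul hRDG τ n)).2.2 h hh e
    rw [smul_eq_mul] at e2
    rw [e2]
    ring
  obtain ⟨N, c, hc⟩ : ∃ (N : ℕ) (c : ℤ), ∀ n ≥ N, rd (τ^[n] w) = c := by
    by_cases hfix : τ w = w
    · refine ⟨0, rd w, fun n _ => ?_⟩
      rw [Function.iterate_fixed hfix]
    · have h1 := (hres w hw0 hVw).resolve_left hfix
      have hne : τ w - w ≠ 0 := sub_ne_zero.2 hfix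
      obtain ⟨y, hy⟩ : ∃ y, y = (τ w - w) / w := ⟨_, rfl⟩
      have hy0 : y ≠ 0 := by rw [hy]; exact div_ne_zero hne hw0
      have hVy : 0 < V y := by rw [hy, hdiv _ _ hne hw0, hVw, sub_zero]; exact h1
      obtain ⟨N, hN⟩ := hsgn y hy0 hVy
      have hτw : τ w = w * (1 + y) := by
        rw [hy]
        field_simp
        ring
      have h1y : 1 + y ≠ 0 := by
        intro h0
        rw [h0, mul_zero] at hτw
        exact (map_ne_zero τ).2 hw0 hτw
      refine ⟨N, rd (τ^[N] w), fun n hn => ?_⟩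
      induction n, hn using Nat.le_induction with
      | base => rfl
      | succ n hn ih =>
        rw [Function.iterate_succ_apply, hτw, an_mul hRDG τ n _ _ hw0 h1y, ih]
        have e3 : τ^[n] (1 + y) = 1 + τ^[n] y := by
          rw [iterate_map_add, iterate_map_one]
        have e4 : τ^[n] (1 + y) ≠ 0 := it_ne τ n h1y
        rw [e3] at e4 ⊢
        rw [rd_one_add hRDG _ (it_ne τ n hy0) e4 (hN n hn), add_zero]
  refine ⟨N, c, ((e : ℤ) - 1) * rd (τ^[N] h) + c, ?_⟩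
  refine exp_seq (e : ℤ) (fun n => rd (τ^[n] h)) c N fun n hn => ?_
  show rd (τ^[n + 1] h) = (e : ℤ) * rd (τ^[n] h) + c
  rw [haw n, hc n hn]

lemma lt_pow_int {E : ℤ} (hE : 2 ≤ E) (n : ℕ) : (n : ℤ) < E ^ n := by
  have h1 : ((n : ℕ) : ℤ) < ((2 ^ n : ℕ) : ℤ) := by exact_mod_cast Nat.lt_two_pow_self
  have h2 : ((2 ^ n : ℕ) : ℤ) ≤ E ^ n := by
    push_cast
    exact pow_le_pow_left₀ (by norm_num) hE n
  exact lt_of_lt_of_le h1 h2

/-- Row OMG. -/
theorem pf_OMG (hRDG : T_RDG) (hSUM : T_SUM) : T_OMG := by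
  intro k _ T τ e Λ _ _ _ V X hF hV hres hrk hsgn hX0 hXneg hgrow
  obtain ⟨hV1, hVinv, hVz⟩ := mul_map V hV.mul
  have hE : (2 : ℤ) ≤ (e : ℤ) := by exact_mod_cast hF.two
  obtain ⟨E, hEe⟩ : ∃ E : ℤ, E = (e : ℤ) := ⟨_, rfl⟩
  have hE0 : 0 < E := by rw [hEe]; linarith
  have hE2 : 2 ≤ E := by rw [hEe]; exact hE
  have hpw : ∀ n : ℕ, 0 < E ^ n := fun n => pow_pos hE0 n
  obtain ⟨N1, c1, B, hB⟩ := asym hRDG hSUM hV hres hsgn X hX0
  rw [← hEe] at hB
  obtain ⟨c0, hc0, hgr⟩ := hgrow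
  -- `B` is positive
  have hBpos : 0 < B := by
    by_contra hcon
    push Not at hcon
    obtain ⟨n0, hn0⟩ := exists_nat_gt (-(c1 : ℝ) / c0)
    rw [div_lt_iff₀ hc0] at hn0
    set n := N1 + n0 with hn
    have h1 := hB n (by omega)
    have h2 : E ^ N1 * ((E - 1) * rd (τ^[n] X) + c1) ≤ 0 := by
      rw [h1]
      exact mul_nonpos_of_nonneg_of_nonpos (hpw n).le hcon
    have h3 : (E - 1) * rd (τ^[n] X) + c1 ≤ 0 := nonpos_of_mul_nonpos_right h2 (hpw N1)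
    have h4 := hgr n
    have h5 : (n0 : ℝ) ≤ (e : ℝ) ^ n := by
      have h6 := lt_pow_int hE2 n
      rw [hEe] at h6
      have h7 : ((n : ℕ) : ℝ) < (e : ℝ) ^ n := by exact_mod_cast h6
      have h8 : (n0 : ℝ) ≤ (n : ℝ) := by exact_mod_cast (by omega : n0 ≤ n)
      linarith
    have h6 : c0 * (n0 : ℝ) ≤ (rd (τ^[n] X) : ℝ) :=
      (mul_le_mul_of_nonneg_left h5 hc0.le).trans h4
    have h7 : ((E : ℤ) : ℝ) - 1 ≥ 1 := by
      have : (2 : ℝ) ≤ ((E : ℤ) : ℝ) := by exact_mod_cast hE2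
      linarith
    have h8 : (((E : ℤ) : ℝ) - 1) * (rd (τ^[n] X) : ℝ) + (c1 : ℝ) ≤ 0 := by exact_mod_cast h3
    have h9 : 0 ≤ c0 * (n0 : ℝ) := by positivity
    nlinarith
  refine ⟨B.toNat, by omega, fun h hh => ?_⟩
  have hBn : ((B.toNat : ℕ) : ℤ) = B := Int.toNat_of_nonneg hBpos.le
  obtain ⟨N, c, m, hm⟩ := asym hRDG hSUM hV hres hsgn h hh
  rw [← hEe] at hm
  refine ⟨N, m * E ^ N1, ?_⟩
  rw [hBn, ← hEe]
  obtain ⟨a, b, hab, hrel⟩ := hrk h X hh hX0
  have ha : a ≠ 0 := by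
    intro ha
    rw [ha, zero_smul, zero_add] at hrel
    rcases smul_eq_zero.1 hrel with h1 | h1
    · exact hab ⟨ha, h1⟩
    · exact hXneg.ne h1
  -- the function with value zero
  obtain ⟨h', hh'⟩ : ∃ h', h' = h ^ a * X ^ b := ⟨_, rfl⟩
  have hh'0 : h' ≠ 0 := by
    rw [hh']
    exact mul_ne_zero (zpow_ne_zero _ hh) (zpow_ne_zero _ hX0)
  have hVh' : V h' = 0 := by
    rw [hh', hV.mul _ _ (zpow_ne_zero _ hh) (zpow_ne_zero _ hX0), hVz h hh, hVz X hX0, hrel]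
  have hah' : ∀ n, rd (τ^[n] h') = a * rd (τ^[n] h) + b * rd (τ^[n] X) := by
    intro n
    have e1 := (mul_map (fun g => rd (τ^[n] g)) (an_mul hRDG τ n)).2.2
    rw [hh', an_mul hRDG τ n _ _ (zpow_ne_zero _ hh) (zpow_ne_zero _ hX0), e1 h hh,
      e1 X hX0, smul_eq_mul, smul_eq_mul]
  obtain ⟨N2, c2, m2, hm2⟩ := asym hRDG hSUM hV hres hsgn h' hh'0
  rw [← hEe] at hm2
  have hm20 : m2 = 0 := by
    by_contra hne
    have hsq : 1 ≤ m2 * m2 := by
      have : 0 < m2 * m2 := mul_self_pos.2 hne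
      omega
    obtain ⟨M, hM⟩ : ∃ M, M = (E ^ N2 * B + 1) * m2 := ⟨_, rfl⟩
    have hVM : 0 < V (h' ^ M * X⁻¹) := by
      rw [hV.mul _ _ (zpow_ne_zero _ hh'0) (inv_ne_zero hX0), hVz _ hh'0, hVh', smul_zero,
        zero_add, hVinv X hX0]
      exact neg_pos.2 hXneg
    obtain ⟨N3, hN3⟩ := hsgn (h' ^ M * X⁻¹)
      (mul_ne_zero (zpow_ne_zero _ hh'0) (inv_ne_zero hX0)) hVM
    have h1 : ∀ n ≥ N3, M * rd (τ^[n] h') - rd (τ^[n] X) < 0 := by
      intro n hn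
      have h2 := hN3 n hn
      have e1 := mul_map (fun g => rd (τ^[n] g)) (an_mul hRDG τ n)
      rw [an_mul hRDG τ n _ _ (zpow_ne_zero _ hh'0) (inv_ne_zero hX0), e1.2.2 _ hh'0,
        e1.2.1 _ hX0, smul_eq_mul] at h2
      linarith
    obtain ⟨Cc, hCc⟩ : ∃ Cc, Cc = M * c2 * E ^ N1 * E ^ N2 - c1 * E ^ N1 * E ^ N2 := ⟨_, rfl⟩
    obtain ⟨n, hn⟩ : ∃ n, n = N1 + N2 + N3 + Cc.toNat := ⟨_, rfl⟩
    have h3 := h1 n (by omega)
    have h4 := hm2 n (by omega)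
    have h5 := hB n (by omega)
    have h6 : E ^ n * (M * m2 * E ^ N1 - E ^ N2 * B) < Cc := by
      have h7 : E ^ n * (M * m2 * E ^ N1 - E ^ N2 * B) - Cc =
          (E ^ N1 * E ^ N2 * (E - 1)) * (M * rd (τ^[n] h') - rd (τ^[n] X)) := by
        rw [hCc]
        linear_combination (-M * E ^ N1) * h4 + E ^ N2 * h5
      have h8 : 0 < E ^ N1 * E ^ N2 * (E - 1) :=
        mul_pos (mul_pos (hpw _) (hpw _)) (by linarith)
      have h9 := mul_neg_of_pos_of_neg h8 h3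
      linarith
    have h7 : 1 ≤ M * m2 * E ^ N1 - E ^ N2 * B := by
      have h8 : E ^ N2 * B + 1 ≤ M * m2 := by
        rw [hM]
        have : 0 < E ^ N2 * B := mul_pos (hpw _) hBpos
        nlinarith
      have h9 : M * m2 ≤ M * m2 * E ^ N1 := by
        have h10 : 1 ≤ E ^ N1 := hpw N1
        have h11 : 0 ≤ M * m2 := by
          have : 0 < E ^ N2 * B := mul_pos (hpw _) hBpos
          linarith
        nlinarith
      linarith
    have h8 : Cc < E ^ n := by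
      have h9 := lt_pow_int hE2 n
      have h10 : Cc ≤ (n : ℤ) := by
        have := Int.self_le_toNat Cc
        rw [hn]
        push_cast
        have h11 : (0 : ℤ) ≤ (N1 : ℤ) := Int.natCast_nonneg _
        have h12 : (0 : ℤ) ≤ (N2 : ℤ) := Int.natCast_nonneg _
        have h13 : (0 : ℤ) ≤ (N3 : ℤ) := Int.natCast_nonneg _
        have h14 : (Cc.toNat : ℤ) = max Cc 0 := Int.toNat_eq_max Cc |>.symm ▸ rfl
        linarith
      linarith
    have h9 := hpw n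
    nlinarith
  -- the relation between the leading coefficients
  have hZ : a * (m * E ^ N1) + b * (B * E ^ N) = 0 := by
    have h1 : ∀ n ≥ N + N1 + N2, E ^ n * (a * (m * E ^ N1) + b * (B * E ^ N)) =
        E ^ N * E ^ N1 * (a * c + b * c1 - c2) := by
      intro n hn
      have h2 := hm n (by omega)
      have h3 := hB n (by omega)
      have h4 := hm2 n (by omega)
      rw [hm20, mul_zero] at h4
      have h5 := (mul_eq_zero.1 h4).resolve_left (hpw N2).ne'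
      have h6 := hah' n
      linear_combination (-a * E ^ N1) * h2 + (-b * E ^ N) * h3 +
        (E ^ N * E ^ N1) * h5 - (E ^ N * E ^ N1 * (E - 1)) * h6
    have h2 := h1 (N + N1 + N2) le_rfl
    have h3 := h1 (N + N1 + N2 + 1) (by omega)
    rw [← h2, pow_succ] at h3
    have h4 : E ^ (N + N1 + N2) * (E - 1) * (a * (m * E ^ N1) + b * (B * E ^ N)) = 0 := by
      linear_combination h3
    have h5 : E ^ (N + N1 + N2) * (E - 1) ≠ 0 :=
      mul_ne_zero (hpw _).ne' (by intro h6; linarith)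
    exact (mul_eq_zero.1 h4).resolve_left h5
  -- conclusion
  have h1 : a • ((B * E ^ N) • V h) = a • ((m * E ^ N1) • V X) := by
    have h2 : a • V h = (-b) • V X := by
      rw [neg_smul]
      exact eq_neg_of_add_eq_zero_left hrel
    have h3 : a * (m * E ^ N1) = (B * E ^ N) * (-b) := by linear_combination hZ
    rw [smul_comm, h2, ← mul_smul, ← mul_smul, h3]
  have h2 : a • ((B * E ^ N) • V h - (m * E ^ N1) • V X) = 0 := by
    rw [smul_sub, h1, sub_self]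
  exact sub_eq_zero.1 ((smul_eq_zero.1 h2).resolve_left ha)

end main

end Pool.Agent.H40.DEN
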