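import Pool.Agent.H37.DEN.Targets

/-!
# MP_ccfdad_ag, row RHO: the limit of the numbers of poles is a valuation
-/

set_option autoImplicit false

open MvPolynomial Filter Topology
open Pool.Agent.H18.HIT Pool.Agent.H8.TD Pool.Agent.H37.DEN

namespace Pool.Agent.H40.DEN

section basic

variable {k : Type} [Field k]

lemma tdeg_pow (P : Po 3 k) (hP : P ≠ 0) (n : ℕ) :
    (P ^ n).totalDegree = n * P.totalDegree := by
  induction n with
  | zero => simp
  | succ n ih =>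
    rw [pow_succ, totalDegree_mul_of_isDomain (pow_ne_zero n hP) hP, ih]
    ring

/-- the normalized number of poles -/
noncomputable def rat {T : Tup 3 k} {e m : ℕ} (C : Cv T e m) (P : Po 3 k) : ℝ :=
  ((C.pol P : ℕ) : ℝ) / ((C.dlt : ℕ) : ℝ)

lemma rat_nonneg {T : Tup 3 k} {e m : ℕ} (C : Cv T e m) (P : Po 3 k) : 0 ≤ rat C P := by
  unfold rat
  positivity

variable {T : Tup 3 k} {e m : ℕ}

lemma pol_le (hPOL : T_POL) (he : 1 ≤ e) (C : Cv T e m) (P : Po 3 k) :
    C.pol P ≤ P.totalDegree * C.dlt := by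
  unfold Cv.pol Cv.dlt
  rw [Finset.mul_sum]
  exact Finset.sum_le_sum fun i _ => (hPOL k T e m C he).2.1 i P

lemma rat_le (hPOL : T_POL) (he : 1 ≤ e) (C : Cv T e m) (P : Po 3 k) :
    rat C P ≤ P.totalDegree := by
  unfold rat
  refine div_le_of_le_mul₀ (by positivity) (by positivity) ?_
  exact_mod_cast pol_le hPOL he C P

lemma pol_mul (hPOL : T_POL) (he : 1 ≤ e) (C : Cv T e m) (P Q : Po 3 k) :
    C.pol (P * Q) ≤ C.pol P + C.pol Q := by
  unfold Cv.pol
  rw [← Finset.sum_add_distrib]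
  exact Finset.sum_le_sum fun i _ => (hPOL k T e m C he).2.2.2.1 i P Q

lemma pol_pow (hPOL : T_POL) (he : 1 ≤ e) (C : Cv T e m) (P : Po 3 k) (n : ℕ) :
    C.pol (P ^ n) = n * C.pol P := by
  unfold Cv.pol
  rw [Finset.mul_sum]
  exact Finset.sum_congr rfl fun i _ => (hPOL k T e m C he).2.2.2.2 i P n

lemma dlt_le (C : Cv T e m) : C.dlt ≤ ∑ j : Fin 3, C.pol (X j) := by
  unfold Cv.pol Cv.dlt
  rw [Finset.sum_comm]
  refine Finset.sum_le_sum fun i _ => ?_
  unfold Pool.Agent.H37.DEN.dl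
  refine Finset.sup_le fun j _ => ?_
  exact Finset.single_le_sum (f := fun j : Fin 3 => pl (C.ch i (X j)))
    (fun _ _ => Nat.zero_le _) (Finset.mem_univ j)

end basic

/-- Row RHO. -/
theorem pf_RHO (hITR : T_ITR) (hKON : T_KON) (hPOL : T_POL) (hDG2 : T_DG2) : T_RHO := by
  intro k _ _ _ T τ e m S U C hF hG
  have he : 1 ≤ e := le_trans (by norm_num) hF.fld.two
  obtain ⟨-, -, -, hne, -⟩ := hITR k T τ hF.fld.map
  have hdlt := (hKON k T τ e m S U C hF).2
  -- the limit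
  have hlim : ∀ P : Po 3 k, ∃ x : ℝ, Tendsto (fun s => rat (C s) P) (U : Filter S) (𝓝 x) := by
    intro P
    obtain ⟨x, -, hx⟩ := (isCompact_Icc (a := (0 : ℝ)) (b := P.totalDegree)).ultrafilter_le_nhds
      (U.map fun s => rat (C s) P) (by
        rw [le_principal_iff]
        refine Filter.mem_map.2 (Filter.Eventually.of_forall fun s => ?_)
        exact ⟨rat_nonneg _ _, rat_le hPOL he _ _⟩)
    exact ⟨x, hx⟩
  choose ρ hρ using hlim
  have hρ0 : ∀ P, 0 ≤ ρ P := fun P =>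
    ge_of_tendsto (hρ P) (Eventually.of_forall fun s => rat_nonneg _ _)
  -- comparison of degrees
  have hcmp : ∀ P Q : Po 3 k, P ≠ 0 → Q ≠ 0 → ρ P < ρ Q → ∃ N : ℕ, ∀ n ≥ N,
      (aeval (it T n) P).totalDegree < (aeval (it T n) Q).totalDegree := by
    intro P Q hP hQ hlt
    refine hDG2 k T τ e m S U C hF hG P Q ((ρ Q - ρ P) / 2) hP hQ (by linarith) ?_
    have h1 : Tendsto (fun s => rat (C s) Q - rat (C s) P) (U : Filter S) (𝓝 (ρ Q - ρ P)) :=
      (hρ Q).sub (hρ P)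
    have h2 : ∀ᶠ s in (U : Filter S), (ρ Q - ρ P) / 2 < rat (C s) Q - rat (C s) P :=
      h1.eventually_const_lt (by linarith)
    filter_upwards [h2, hdlt] with s hs hd
    have hd' : (0 : ℝ) < (C s).dlt := by exact_mod_cast hd
    unfold rat at hs
    rw [← sub_div, lt_div_iff₀ hd'] at hs
    linarith
  have hpow : ∀ (P : Po 3 k) (n : ℕ), ρ (P ^ n) = n * ρ P := by
    intro P n
    refine tendsto_nhds_unique (hρ (P ^ n)) ?_
    have h1 : (fun s => rat (C s) (P ^ n)) = fun s => (n : ℝ) * rat (C s) P := by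
      funext s
      unfold rat
      rw [pol_pow hPOL he]
      push_cast
      ring
    rw [h1]
    exact (hρ P).const_mul _
  have hmul : ∀ P Q : Po 3 k, ρ (P * Q) ≤ ρ P + ρ Q := by
    intro P Q
    refine le_of_tendsto_of_tendsto (hρ (P * Q)) ((hρ P).add (hρ Q))
      (Eventually.of_forall fun s => ?_)
    show rat (C s) (P * Q) ≤ rat (C s) P + rat (C s) Q
    unfold rat
    rw [← add_div]
    refine div_le_div_of_nonneg_right ?_ (by positivity)
    exact_mod_cast pol_mul hPOL he (C s) P Q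
  obtain ⟨j, hj⟩ : ∃ j : Fin 3, 0 < ρ (X j) := by
    by_contra hcon
    push Not at hcon
    have h1 : Tendsto (fun s => ∑ j : Fin 3, rat (C s) (X j)) (U : Filter S)
        (𝓝 (∑ j : Fin 3, ρ (X j))) := tendsto_finsetSum _ fun j _ => hρ (X j)
    have h2 : 1 ≤ ∑ j : Fin 3, ρ (X j) := by
      refine ge_of_tendsto h1 ?_
      filter_upwards [hdlt] with s hd
      have hd' : (0 : ℝ) < (C s).dlt := by exact_mod_cast hd
      unfold rat
      rw [← Finset.sum_div, le_div_iff₀ hd', one_mul]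
      exact_mod_cast dlt_le (C s)
    have h3 : ∑ j : Fin 3, ρ (X j) ≤ 0 := Finset.sum_nonpos fun j _ => hcon j
    linarith
  set x : Po 3 k := X j with hx
  have hx0 : x ≠ 0 := X_ne_zero j
  have hdp : ∀ (P : Po 3 k) (b n : ℕ), P ≠ 0 → (aeval (it T n) (P ^ b)).totalDegree =
      b * (aeval (it T n) P).totalDegree := by
    intro P b n hP
    rw [map_pow, tdeg_pow _ (hne n P hP)]
  have hA : ∀ (P : Po 3 k) (a b : ℕ), P ≠ 0 → (b : ℝ) * ρ P < a * ρ x → ∃ N : ℕ, ∀ n ≥ N,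
      b * (aeval (it T n) P).totalDegree < a * (aeval (it T n) x).totalDegree := by
    intro P a b hP hlt
    obtain ⟨N, hN⟩ := hcmp (P ^ b) (x ^ a) (pow_ne_zero b hP) (pow_ne_zero a hx0) (by
      rw [hpow, hpow]; exact hlt)
    refine ⟨N, fun n hn => ?_⟩
    have := hN n hn
    rwa [hdp P b n hP, hdp x a n hx0] at this
  have hB : ∀ (P : Po 3 k) (a b : ℕ), P ≠ 0 → (a : ℝ) * ρ x < b * ρ P → ∃ N : ℕ, ∀ n ≥ N,
      a * (aeval (it T n) x).totalDegree < b * (aeval (it T n) P).totalDegree := by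
    intro P a b hP hlt
    obtain ⟨N, hN⟩ := hcmp (x ^ a) (P ^ b) (pow_ne_zero a hx0) (pow_ne_zero b hP) (by
      rw [hpow, hpow]; exact hlt)
    refine ⟨N, fun n hn => ?_⟩
    have := hN n hn
    rwa [hdp P b n hP, hdp x a n hx0] at this
  refine ⟨ρ, fun P _ => hρ P, hcmp, ?_, ?_⟩
  · intro P Q hP hQ
    refine le_antisymm (hmul P Q) ?_
    by_contra hcon
    push Not at hcon
    obtain ⟨b, hb⟩ := exists_nat_gt (3 * ρ x / (ρ P + ρ Q - ρ (P * Q)))
    have hpos : 0 < ρ P + ρ Q - ρ (P * Q) := by linarith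
    rw [div_lt_iff₀ hpos] at hb
    have hlow : ∀ R : Po 3 k, R ≠ 0 → ∃ a : ℕ, (b : ℝ) * ρ R ≤ (a + 1) * ρ x ∧ ∃ N : ℕ, ∀ n ≥ N,
        a * (aeval (it T n) x).totalDegree ≤ b * (aeval (it T n) R).totalDegree := by
      intro R hR
      rcases (mul_nonneg (Nat.cast_nonneg b) (hρ0 R)).eq_or_lt with h0 | h0
      · refine ⟨0, ?_, 0, fun n _ => ?_⟩
        · rw [← h0]
          push_cast
          linarith
        · rw [zero_mul]
          exact Nat.zero_le _
      · have hq : 0 < (b : ℝ) * ρ R / ρ x := div_pos h0 hj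
        have h1 : 0 < ⌈(b : ℝ) * ρ R / ρ x⌉₊ := Nat.ceil_pos.2 hq
        obtain ⟨a, ha⟩ : ∃ a, ⌈(b : ℝ) * ρ R / ρ x⌉₊ = a + 1 :=
          ⟨⌈(b : ℝ) * ρ R / ρ x⌉₊ - 1, by omega⟩
        have h2 : (b : ℝ) * ρ R / ρ x ≤ (a : ℝ) + 1 := by
          have := Nat.le_ceil ((b : ℝ) * ρ R / ρ x)
          rw [ha] at this
          exact_mod_cast this
        have h3 : (a : ℝ) < (b : ℝ) * ρ R / ρ x := by
          rw [← Nat.lt_ceil, ha]
          omega
        rw [div_le_iff₀ hj] at h2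
        rw [lt_div_iff₀ hj] at h3
        obtain ⟨N, hN⟩ := hB R a b hR h3
        exact ⟨a, h2, N, fun n hn => (hN n hn).le⟩
    obtain ⟨a1, h1, N1, hN1⟩ := hlow P hP
    obtain ⟨a2, h2, N2, hN2⟩ := hlow Q hQ
    obtain ⟨N3, hN3⟩ := hA (P * Q) (a1 + a2) b (mul_ne_zero hP hQ) (by
      push_cast
      nlinarith)
    have e1 := hN1 (N1 + N2 + N3) (by omega)
    have e2 := hN2 (N1 + N2 + N3) (by omega)
    have e3 := hN3 (N1 + N2 + N3) (by omega)
    rw [map_mul, totalDegree_mul_of_isDomain (hne _ P hP) (hne _ Q hQ)] at e3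
    rw [mul_add, add_mul] at e3
    omega
  · intro P Q hP hQ hPQ
    by_contra hcon
    push Not at hcon
    obtain ⟨M, hM⟩ : ∃ M, M = max (ρ P) (ρ Q) := ⟨_, rfl⟩
    rw [← hM] at hcon
    have hM0 : 0 ≤ M := by rw [hM]; exact (hρ0 P).trans (le_max_left _ _)
    obtain ⟨b, hb⟩ := exists_nat_gt (ρ x / (ρ (P + Q) - M))
    have hpos : 0 < ρ (P + Q) - M := by linarith
    rw [div_lt_iff₀ hpos] at hb
    set a : ℕ := ⌊(b : ℝ) * M / ρ x⌋₊ + 1 with ha
    have h1 : (b : ℝ) * M < a * ρ x := by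
      have := Nat.lt_floor_add_one ((b : ℝ) * M / ρ x)
      rw [div_lt_iff₀ hj] at this
      rw [ha]
      push_cast
      exact this
    have h2 : (a : ℝ) * ρ x ≤ b * M + ρ x := by
      have h3 := Nat.floor_le (a := (b : ℝ) * M / ρ x) (by positivity)
      rw [le_div_iff₀ hj] at h3
      rw [ha]
      push_cast
      linarith
    have hPM : ρ P ≤ M := by rw [hM]; exact le_max_left _ _
    have hQM : ρ Q ≤ M := by rw [hM]; exact le_max_right _ _
    have hb0 : (0 : ℝ) ≤ b := Nat.cast_nonneg b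
    obtain ⟨N1, hN1⟩ := hA P a b hP (lt_of_le_of_lt (mul_le_mul_of_nonneg_left hPM hb0) h1)
    obtain ⟨N2, hN2⟩ := hA Q a b hQ (lt_of_le_of_lt (mul_le_mul_of_nonneg_left hQM hb0) h1)
    obtain ⟨N3, hN3⟩ := hB (P + Q) a b hPQ (by nlinarith)
    have e1 := hN1 (N1 + N2 + N3) (by omega)
    have e2 := hN2 (N1 + N2 + N3) (by omega)
    have e3 := hN3 (N1 + N2 + N3) (by omega)
    rw [map_add] at e3
    have e4 := totalDegree_add (aeval (it T (N1 + N2 + N3)) P) (aeval (it T (N1 + N2 + N3)) Q)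
    have e5 := Nat.mul_le_mul_left b e4
    rcases le_total (aeval (it T (N1 + N2 + N3)) P).totalDegree
      (aeval (it T (N1 + N2 + N3)) Q).totalDegree with h | h
    · rw [max_eq_right h] at e5
      omega
    · rw [max_eq_left h] at e5
      omega

end Pool.Agent.H40.DEN
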